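import Pool.Agent.N656.MD.Stm
import Pool.Agent.Y856.Metric.HC

/-!
# Project MD: UP, the covering upper bound (helper67)
-/

set_option autoImplicit false

namespace Pool.Agent.N67.MD

open Filter MeasureTheory Set Pool.Agent.N656.MH Pool.Agent.N656.MD
open scoped ENNReal NNReal

/-- the number of the intervals -/
noncomputable def KK (R α : ℝ) (n : ℕ) : ℕ := ⌊R * (n : ℝ) ^ α + 1⌋₊

open Classical in
/-- the intervals -/
noncomputable def II (R α τ : ℝ) (p : ℕ × ℤ) : Set ℝ :=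
  if 1 ≤ p.1 ∧ p.2 ∈ Finset.Icc (-(KK R α p.1 : ℤ)) (KK R α p.1) then
    Icc ((p.2 : ℝ) / (p.1 : ℝ) ^ α - (p.1 : ℝ) ^ (-(τ + α)))
      ((p.2 : ℝ) / (p.1 : ℝ) ^ α + (p.1 : ℝ) ^ (-(τ + α))) else ∅

theorem mem_II {R α τ β : ℝ} (hR : 0 ≤ R) (hβ : |β| ≤ R) {n : ℕ} (hn : 1 ≤ n)
    (h : dn (β * (n : ℝ) ^ α) < (n : ℝ) ^ (-τ)) : β ∈ II R α τ (n, round (β * (n : ℝ) ^ α)) := by
  have hn0 : (0 : ℝ) < n := by exact_mod_cast hn
  have hp : (0 : ℝ) < (n : ℝ) ^ α := Real.rpow_pos_of_pos hn0 _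
  unfold dn at h
  set k : ℤ := round (β * (n : ℝ) ^ α) with hk
  have h1 : |(k : ℝ)| ≤ R * (n : ℝ) ^ α + 1 := by
    have h2 : |β * (n : ℝ) ^ α - k| ≤ 1 / 2 := abs_sub_round _
    have h3 : |β * (n : ℝ) ^ α| ≤ R * (n : ℝ) ^ α := by
      rw [abs_mul, abs_of_pos hp]
      exact mul_le_mul_of_nonneg_right hβ hp.le
    have h4 := abs_le.1 h2
    have h5 := abs_le.1 h3
    rw [abs_le]
    constructor <;> linarith [h4.1, h4.2, h5.1, h5.2]
  have h2 : k ∈ Finset.Icc (-(KK R α n : ℤ)) (KK R α n) := by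
    have h3 : ((k.natAbs : ℕ) : ℝ) ≤ R * (n : ℝ) ^ α + 1 := by
      rw [Nat.cast_natAbs, Int.cast_abs]; exact h1
    have h4 : k.natAbs ≤ KK R α n := Nat.le_floor h3
    rw [Finset.mem_Icc]
    omega
  unfold II
  rw [if_pos ⟨hn, h2⟩]
  simp only
  have h3 : |β - k / (n : ℝ) ^ α| ≤ (n : ℝ) ^ (-(τ + α)) := by
    have h4 : β - k / (n : ℝ) ^ α = (β * (n : ℝ) ^ α - k) / (n : ℝ) ^ α := by
      field_simp
    rw [h4, abs_div, abs_of_pos hp, div_le_iff₀ hp, ← Real.rpow_add hn0]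
    have : -(τ + α) + α = -τ := by ring
    rw [this]
    exact h.le
  have h4 := abs_le.1 h3
  constructor <;> linarith [h4.1, h4.2]

theorem inner_le {R α τ s : ℝ} (hR : 0 ≤ R) (hs : 0 < s) (n : ℕ) :
    ∑' k : ℤ, Metric.ediam (II R α τ (n, k)) ^ s ≤ ENNReal.ofReal
      (2 * R * 2 ^ s * (n : ℝ) ^ (α - s * (τ + α)) + 3 * 2 ^ s * (n : ℝ) ^ (-(s * (τ + α)))) := by
  classical
  rcases Nat.eq_zero_or_pos n with h0 | h0
  · subst h0
    have : ∀ k : ℤ, Metric.ediam (II R α τ (0, k)) ^ s = 0 := by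
      intro k
      unfold II
      rw [if_neg (by simp)]
      simp [hs]
    simp only [this, tsum_zero]
    exact bot_le
  · have hn0 : (0 : ℝ) < n := by exact_mod_cast h0
    have hp : (0 : ℝ) < (n : ℝ) ^ α := Real.rpow_pos_of_pos hn0 _
    have hr : (0 : ℝ) < (n : ℝ) ^ (-(τ + α)) := Real.rpow_pos_of_pos hn0 _
    set K := KK R α n with hK
    have h1 : ∑' k : ℤ, Metric.ediam (II R α τ (n, k)) ^ s =
        ∑ k ∈ Finset.Icc (-(K : ℤ)) K, Metric.ediam (II R α τ (n, k)) ^ s := by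
      apply tsum_eq_sum
      intro k hk
      unfold II
      rw [if_neg (fun h => hk h.2)]
      simp [hs]
    rw [h1]
    have h2 : ∀ k ∈ Finset.Icc (-(K : ℤ)) K, Metric.ediam (II R α τ (n, k)) ^ s ≤
        ENNReal.ofReal (2 ^ s * (n : ℝ) ^ (-(s * (τ + α)))) := by
      intro k hk
      unfold II
      rw [if_pos ⟨h0, hk⟩, Real.ediam_Icc]
      simp only
      have h3 : (k : ℝ) / (n : ℝ) ^ α + (n : ℝ) ^ (-(τ + α)) -
          ((k : ℝ) / (n : ℝ) ^ α - (n : ℝ) ^ (-(τ + α))) = 2 * (n : ℝ) ^ (-(τ + α)) := by ring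
      rw [h3, ENNReal.ofReal_rpow_of_pos (by positivity)]
      apply ENNReal.ofReal_le_ofReal
      rw [Real.mul_rpow (by norm_num) hr.le, ← Real.rpow_mul hn0.le]
      apply le_of_eq
      congr 2
      ring
    refine (Finset.sum_le_sum h2).trans ?_
    rw [Finset.sum_const, Int.card_Icc, nsmul_eq_mul]
    have h4 : ((K : ℤ) + 1 - -(K : ℤ)).toNat = 2 * K + 1 := by omega
    rw [h4, ← ENNReal.ofReal_natCast, ← ENNReal.ofReal_mul (by positivity)]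
    apply ENNReal.ofReal_le_ofReal
    have h5 : (K : ℝ) ≤ R * (n : ℝ) ^ α + 1 := Nat.floor_le (by positivity)
    have h6 : (n : ℝ) ^ (α - s * (τ + α)) = (n : ℝ) ^ α * (n : ℝ) ^ (-(s * (τ + α))) := by
      rw [← Real.rpow_add hn0]
      congr 1
    rw [h6]
    push_cast
    have h7 : 0 ≤ (2 : ℝ) ^ s * (n : ℝ) ^ (-(s * (τ + α))) := by positivity
    calc (2 * (K : ℝ) + 1) * (2 ^ s * (n : ℝ) ^ (-(s * (τ + α)))) ≤
        (2 * R * (n : ℝ) ^ α + 3) * (2 ^ s * (n : ℝ) ^ (-(s * (τ + α)))) := by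
          apply mul_le_mul_of_nonneg_right _ h7
          linarith
      _ = _ := by ring

theorem sum_ne_top {R α τ s : ℝ} (hR : 0 ≤ R) (hα : 0 < α) (hs : 0 < s)
    (h : 1 + α < s * (τ + α)) :
    ∑' p : ℕ × ℤ, Metric.ediam (II R α τ p) ^ s ≠ ∞ := by
  have e : ∑' p : ℕ × ℤ, Metric.ediam (II R α τ p) ^ s =
      ∑' (n : ℕ) (k : ℤ), Metric.ediam (II R α τ (n, k)) ^ s :=
    ENNReal.tsum_prod (f := fun (n : ℕ) (k : ℤ) => Metric.ediam (II R α τ (n, k)) ^ s)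
  rw [e]
  refine ne_top_of_le_ne_top ?_ (ENNReal.tsum_le_tsum fun n => inner_le hR hs n)
  apply Summable.tsum_ofReal_ne_top
  apply Summable.add
  · exact (Real.summable_nat_rpow.2 (by linarith)).mul_left _
  · exact (Real.summable_nat_rpow.2 (by linarith)).mul_left _

theorem up_R {α τ : ℝ} (hα : 0 < α) (hτ : 0 < τ) (R : ℕ) (d : ℝ≥0)
    (hd : (1 + α) / (τ + α) < d) : dimH (W α τ ∩ Icc (-(R : ℝ)) R) ≤ d := by
  have hd0 : (0 : ℝ) < d := lt_trans (by positivity) hd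
  have hd1 : 1 + α < d * (τ + α) := by
    rwa [div_lt_iff₀ (by positivity)] at hd
  apply dimH_le_of_hausdorffMeasure_ne_top
  apply Pool.Agent.Y856.hausdorff_cantelli (II (R : ℝ) α τ) (d : ℝ) hd0
    (sum_ne_top (by positivity) hα hd0 hd1)
  rintro β ⟨hβ, hβ2⟩
  have hβR : |β| ≤ R := abs_le.2 ⟨hβ2.1, hβ2.2⟩
  have hfr : ∃ᶠ n : ℕ in atTop, dn (β * (n : ℝ) ^ α) < (n : ℝ) ^ (-τ) ∧ 1 ≤ n :=
    Frequently.and_eventually hβ (eventually_ge_atTop 1)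
  have hinf : {n : ℕ | dn (β * (n : ℝ) ^ α) < (n : ℝ) ^ (-τ) ∧ 1 ≤ n}.Infinite :=
    Nat.frequently_atTop_iff_infinite.1 hfr
  have h1 : (fun n : ℕ => ((n, round (β * (n : ℝ) ^ α)) : ℕ × ℤ)) ''
      {n : ℕ | dn (β * (n : ℝ) ^ α) < (n : ℝ) ^ (-τ) ∧ 1 ≤ n} ⊆ {p | β ∈ II (R : ℝ) α τ p} := by
    rintro _ ⟨n, ⟨hn1, hn2⟩, rfl⟩
    exact mem_II (by positivity) hβR hn2 hn1
  refine (hinf.image ?_).mono h1
  intro a _ b _ hab
  exact (Prod.mk.inj hab).1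

theorem t_UP : S_UP := by
  intro α τ hα hτ
  have hW : W α τ ⊆ ⋃ R : ℕ, (W α τ ∩ Icc (-(R : ℝ)) R) := by
    intro β hβ
    obtain ⟨R, hR⟩ := exists_nat_ge |β|
    rw [mem_iUnion]
    exact ⟨R, hβ, abs_le.1 hR⟩
  refine (dimH_mono hW).trans ?_
  rw [dimH_iUnion]
  apply iSup_le
  intro R
  have hpos : 0 < (1 + α) / (τ + α) := by positivity
  apply ENNReal.le_of_forall_pos_le_add
  intro ε hε _
  have h := up_R hα hτ R (((1 + α) / (τ + α)).toNNReal + ε) (by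
    push_cast
    rw [Real.coe_toNNReal _ hpos.le]
    have : (0 : ℝ) < ε := by exact_mod_cast hε
    linarith)
  rw [ENNReal.coe_add] at h
  exact h

end Pool.Agent.N67.MD
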